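import Pool.Agent.W743.HP.Stm

/-!
Project HP (helper743), problem MP_8f331d_an, part HP-HOM: the conformal map restricted to the disc
extends to a homeomorphism of the plane which is linear far out.
-/

set_option autoImplicit false

open Set Filter Topology MeasureTheory
open scoped NNReal

namespace Pool.Agent.W972.HP

open Pool.Agent.W743.HP

/-- The cutoff. -/
noncomputable def chi (r : ℝ) : ℝ := min 1 (max 0 (4 * (1 - r)))

theorem chi_nonneg (r : ℝ) : 0 ≤ chi r := le_min zero_le_one (le_max_left _ _)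

theorem chi_le_one (r : ℝ) : chi r ≤ 1 := min_le_left _ _

theorem chi_of_one_le {r : ℝ} (h : 1 ≤ r) : chi r = 0 := by
  unfold chi
  rw [max_eq_left (by linarith), min_eq_right zero_le_one]

theorem chi_of_le {r : ℝ} (h : r ≤ 3 / 4) : chi r = 1 := by
  unfold chi
  rw [max_eq_right (by linarith), min_eq_left (by linarith)]

theorem chi_le {r : ℝ} (h : r ≤ 1) : chi r ≤ 4 * (1 - r) := by
  unfold chi
  rw [max_eq_right (by linarith)]
  exact min_le_right _ _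

theorem chi_sub_le (r s : ℝ) : |chi r - chi s| ≤ 4 * |r - s| := by
  unfold chi
  calc |min 1 (max 0 (4 * (1 - r))) - min 1 (max 0 (4 * (1 - s)))|
      ≤ |max 0 (4 * (1 - r)) - max 0 (4 * (1 - s))| := by
        have := abs_min_sub_min_le_max 1 (max 0 (4 * (1 - r))) 1 (max 0 (4 * (1 - s)))
        simpa using this
    _ ≤ |4 * (1 - r) - 4 * (1 - s)| := by
        have := abs_max_sub_max_le_max 0 (4 * (1 - r)) 0 (4 * (1 - s))
        simpa using this
    _ = 4 * |r - s| := by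
        rw [← mul_sub, abs_mul, abs_of_pos (by norm_num : (0 : ℝ) < 4), abs_sub_comm]
        congr 2
        ring

theorem h_lip (f : ℂ → ℂ) (t : ℝ) (ht : 0 < t) (hd : DifferentiableOn ℂ f (Metric.ball 0 1))
    (h : ∀ z ∈ Metric.ball (0 : ℂ) 1, ‖deriv f z - t‖ ≤ t / 10) :
    ∀ z ∈ Metric.ball (0 : ℂ) 1, ∀ w ∈ Metric.ball (0 : ℂ) 1,
      ‖(f w / t - w) - (f z / t - z)‖ ≤ 1 / 10 * ‖w - z‖ := by
  intro z hz w hw
  refine (convex_ball (0 : ℂ) 1).norm_image_sub_le_of_norm_hasDerivWithin_le (𝕜 := ℂ)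
    (f := fun z => f z / t - z) (f' := fun z => deriv f z / t - 1) (C := 1 / 10) ?_ ?_ hz hw
  · intro x hx
    have h1 : HasDerivAt f (deriv f x) x :=
      ((hd x hx).differentiableAt (Metric.isOpen_ball.mem_nhds hx)).hasDerivAt
    exact ((h1.div_const (t : ℂ)).sub (hasDerivAt_id x)).hasDerivWithinAt
  · intro x hx
    have h2 := h x hx
    have ht0 : (t : ℂ) ≠ 0 := by exact_mod_cast ht.ne'
    have : deriv f x / t - 1 = (deriv f x - t) / t := by
      field_simp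
    rw [this, norm_div, Complex.norm_real, Real.norm_eq_abs, abs_of_pos ht, div_le_iff₀ ht]
    linarith

/-- The perturbation. -/
noncomputable def Et (f : ℂ → ℂ) (t : ℝ) (z : ℂ) : ℂ := (chi ‖z‖ : ℂ) * (f z / t - z)

theorem Et_out (f : ℂ → ℂ) (t : ℝ) {z : ℂ} (hz : 1 ≤ ‖z‖) : Et f t z = 0 := by
  unfold Et
  rw [chi_of_one_le hz]
  simp

theorem Et_lip (f : ℂ → ℂ) (t : ℝ) (ht : 0 < t) (hd : DifferentiableOn ℂ f (Metric.ball 0 1))
    (h0 : f 0 = 0) (h : ∀ z ∈ Metric.ball (0 : ℂ) 1, ‖deriv f z - t‖ ≤ t / 10) (z w : ℂ) :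
    ‖Et f t z - Et f t w‖ ≤ 1 / 2 * ‖z - w‖ := by
  have hlip := h_lip f t ht hd h
  have hb : ∀ z : ℂ, ‖z‖ < 1 → ‖f z / t - z‖ ≤ 1 / 10 := by
    intro z hz
    have h1 := hlip 0 (by simp) z (by simpa using hz)
    rw [h0] at h1
    simp only [zero_div, sub_zero] at h1
    linarith
  have hio : ∀ z w : ℂ, ‖z‖ < 1 → 1 ≤ ‖w‖ → ‖Et f t z - Et f t w‖ ≤ 1 / 2 * ‖z - w‖ := by
    intro z w hz hw
    rw [Et_out f t hw, sub_zero]
    unfold Et
    rw [norm_mul, Complex.norm_real, Real.norm_eq_abs, abs_of_nonneg (chi_nonneg _)]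
    have h1 := hb z hz
    have h2 := chi_le hz.le
    have h3 : ‖w‖ - ‖z‖ ≤ ‖z - w‖ := by
      rw [norm_sub_rev]; exact norm_sub_norm_le _ _
    have h4 : chi ‖z‖ * ‖f z / t - z‖ ≤ (4 * (1 - ‖z‖)) * (1 / 10) :=
      mul_le_mul h2 h1 (norm_nonneg _) (by linarith)
    nlinarith [norm_nonneg (z - w)]
  rcases lt_or_ge ‖z‖ 1 with hz | hz
  · rcases lt_or_ge ‖w‖ 1 with hw | hw
    · have e : Et f t z - Et f t w = (chi ‖z‖ : ℂ) * ((f z / t - z) - (f w / t - w)) +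
          ((chi ‖z‖ - chi ‖w‖ : ℝ) : ℂ) * (f w / t - w) := by
        unfold Et
        push_cast
        ring
      rw [e]
      refine (norm_add_le _ _).trans ?_
      rw [norm_mul, norm_mul, Complex.norm_real, Complex.norm_real, Real.norm_eq_abs,
        Real.norm_eq_abs, abs_of_nonneg (chi_nonneg _)]
      have h1 := hlip w (by simpa using hw) z (by simpa using hz)
      have h2 := hb w hw
      have h3 := chi_sub_le ‖z‖ ‖w‖
      have h4 : |‖z‖ - ‖w‖| ≤ ‖z - w‖ := abs_norm_sub_norm_le _ _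
      have h5 : chi ‖z‖ * ‖(f z / t - z) - (f w / t - w)‖ ≤ 1 * (1 / 10 * ‖z - w‖) :=
        mul_le_mul (chi_le_one _) h1 (norm_nonneg _) zero_le_one
      have h6 : |chi ‖z‖ - chi ‖w‖| * ‖f w / t - w‖ ≤ (4 * ‖z - w‖) * (1 / 10) :=
        mul_le_mul (h3.trans (by linarith)) h2 (norm_nonneg _) (by positivity)
      linarith
    · exact hio z w hz hw
  · rcases lt_or_ge ‖w‖ 1 with hw | hw
    · rw [norm_sub_rev, norm_sub_rev z w]
      exact hio w z hw hz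
    · rw [Et_out f t hz, Et_out f t hw]
      simp

/-- HP-HOM. -/
theorem hom : S_HOM := by
  intro f hf
  obtain ⟨t, ht1, ht2, hder⟩ := hf.f_der
  have ht : 0 < t := by linarith
  have hlip := Et_lip f t ht hf.f_diff hf.f_zero hder
  have happ : ApproximatesLinearOn (fun z : ℂ => z + Et f t z)
      ((ContinuousLinearEquiv.refl ℂ ℂ : ℂ ≃L[ℂ] ℂ) : ℂ →L[ℂ] ℂ) univ (1 / 2 : ℝ≥0) := by
    intro x _ y _
    have e : (fun z : ℂ => z + Et f t z) x - (fun z : ℂ => z + Et f t z) y -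
        ((ContinuousLinearEquiv.refl ℂ ℂ : ℂ ≃L[ℂ] ℂ) : ℂ →L[ℂ] ℂ) (x - y) =
        Et f t x - Et f t y := by
      simp only [ContinuousLinearEquiv.coe_coe, ContinuousLinearEquiv.refl_apply]
      ring
    rw [e]
    have := hlip x y
    simpa using this
  have hN : ‖(((ContinuousLinearEquiv.refl ℂ ℂ : ℂ ≃L[ℂ] ℂ).symm : ℂ ≃L[ℂ] ℂ) : ℂ →L[ℂ] ℂ)‖₊ = 1 := by
    have : (((ContinuousLinearEquiv.refl ℂ ℂ : ℂ ≃L[ℂ] ℂ).symm : ℂ ≃L[ℂ] ℂ) : ℂ →L[ℂ] ℂ) =
        ContinuousLinearMap.id ℂ ℂ := by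
      ext; simp
    rw [this]
    ext
    simp
  have hc : Subsingleton ℂ ∨ (1 / 2 : ℝ≥0) <
      ‖(((ContinuousLinearEquiv.refl ℂ ℂ : ℂ ≃L[ℂ] ℂ).symm : ℂ ≃L[ℂ] ℂ) : ℂ →L[ℂ] ℂ)‖₊⁻¹ := by
    right
    rw [hN, inv_one]
    norm_num
  have ht0 : (t : ℂ) ≠ 0 := by exact_mod_cast ht.ne'
  refine ⟨(happ.toHomeomorph _ hc).trans (Homeomorph.mulLeft₀ (t : ℂ) ht0), t, ht, by linarith,
    ?_, ?_⟩
  · intro z hz
    have hz' : ‖z‖ ≤ 3 / 4 := by
      have h1 : ‖z‖ ^ 2 ≤ 1 / 2 := hz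
      nlinarith [norm_nonneg z]
    show (t : ℂ) * (z + Et f t z) = f z
    unfold Et
    rw [chi_of_le hz']
    field_simp
    push_cast
    ring
  · intro z hz
    show (t : ℂ) * (z + Et f t z) = t * z
    rw [Et_out f t hz, add_zero]

end Pool.Agent.W972.HP
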